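import Pool.Agent.K7.H25.SB.Main

/-!
# The number of branching points of a Steiner tree inside a terminal-free ball

Question 1 of the problem: `N_d = ∞` for every `d ≥ 2` (in particular `N_2 = ∞`), even if only
finite sets of terminals are allowed.
-/

set_option autoImplicit false

open scoped MeasureTheory ENNReal Topology
open MeasureTheory Set

namespace Pool.Agent.Results.MP_8790b5_co.BranchingNumber

/-- `S` is a Steiner tree for the set `A` of terminals: a closed connected set of finite length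
that contains `A` and minimises `ℋ¹` among all closed connected sets containing `A`. -/
def IsSteinerTree {d : ℕ} (A S : Set (EuclideanSpace ℝ (Fin d))) : Prop :=
  IsClosed S ∧ IsConnected S ∧ A ⊆ S ∧ μH[1] S < ⊤ ∧
    ∀ T : Set (EuclideanSpace ℝ (Fin d)), IsClosed T → IsConnected T → A ⊆ T → μH[1] S ≤ μH[1] T

/-- `p` is a branching point of `S`: it is a point of `S \ A`, and for some `r > 0` the set `S`
agrees in the ball `B_r(p)` with the union of at least three segments `[p, p + r v]` with pairwise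
different unit vectors `v`. -/
def IsBranching {d : ℕ} (A S : Set (EuclideanSpace ℝ (Fin d))) (p : EuclideanSpace ℝ (Fin d)) :
    Prop :=
  p ∈ S \ A ∧ ∃ (F : Finset (EuclideanSpace ℝ (Fin d))) (r : ℝ), 3 ≤ F.card ∧
    (∀ v ∈ F, ‖v‖ = 1) ∧ 0 < r ∧
      S ∩ Metric.ball p r = (⋃ v ∈ F, segment ℝ p (p + r • v)) ∩ Metric.ball p r

/-- `N_d`: the supremum of the number of branching points of `S` in `B_r(x)` over all compact sets
`A`, all Steiner trees `S` for `A` and all balls `B_r(x)` that contain no point of `A`. -/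
noncomputable def N (d : ℕ) : ℕ∞ :=
  sSup {n | ∃ (A S : Set (EuclideanSpace ℝ (Fin d))) (x : EuclideanSpace ℝ (Fin d)) (r : ℝ),
    IsCompact A ∧ IsSteinerTree A S ∧ 0 < r ∧ A ∩ Metric.ball x r = ∅ ∧
      n = {p | p ∈ Metric.ball x r ∧ IsBranching A S p}.encard}

/-- The same supremum over the finite sets `A` of terminals. -/
noncomputable def Nfin (d : ℕ) : ℕ∞ :=
  sSup {n | ∃ (A S : Set (EuclideanSpace ℝ (Fin d))) (x : EuclideanSpace ℝ (Fin d)) (r : ℝ),
    A.Finite ∧ IsSteinerTree A S ∧ 0 < r ∧ A ∩ Metric.ball x r = ∅ ∧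
      n = {p | p ∈ Metric.ball x r ∧ IsBranching A S p}.encard}

theorem result : ∀ d : ℕ, 2 ≤ d → N d = ⊤ ∧ Nfin d = ⊤ := by
  intro d hd
  have key : ∀ m : ℕ, ∃ (A S : Set (EuclideanSpace ℝ (Fin d))) (x : EuclideanSpace ℝ (Fin d)),
      A.Finite ∧ IsSteinerTree A S ∧ A ∩ Metric.ball x 1 = ∅ ∧
        (m : ℕ∞) ≤ {p | p ∈ Metric.ball x 1 ∧ IsBranching A S p}.encard := by
    intro m
    obtain ⟨A, S, c, B, hA, hS, hAc, hB, hb⟩ := Pool.Agent.K7.H25.SB.all d hd m
    refine ⟨A, S, c, hA, hS, hAc, ?_⟩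
    have h1 : (B : Set (EuclideanSpace ℝ (Fin d))) ⊆
        {p | p ∈ Metric.ball c 1 ∧ IsBranching A S p} := by
      intro p hp
      obtain ⟨h1, h2, F, r, h3, h4, h5, h6⟩ := hb p hp
      refine ⟨h1, ⟨h2, fun h => ?_⟩, F, r, h3, h4, h5, h6⟩
      have : p ∈ A ∩ Metric.ball c 1 := ⟨h, h1⟩
      rw [hAc] at this
      exact this
    calc (m : ℕ∞) ≤ (B.card : ℕ∞) := by exact_mod_cast hB
      _ = (B : Set (EuclideanSpace ℝ (Fin d))).encard := (encard_coe_eq_coe_finsetCard B).symm
      _ ≤ _ := encard_le_encard h1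
  constructor
  · refine ENat.eq_top_iff_forall_ge.mpr fun m => ?_
    obtain ⟨A, S, x, hA, hS, hAx, hm⟩ := key m
    exact hm.trans (le_sSup ⟨A, S, x, 1, hA.isCompact, hS, one_pos, hAx, rfl⟩)
  · refine ENat.eq_top_iff_forall_ge.mpr fun m => ?_
    obtain ⟨A, S, x, hA, hS, hAx, hm⟩ := key m
    exact hm.trans (le_sSup ⟨A, S, x, 1, hA, hS, one_pos, hAx, rfl⟩)

end Pool.Agent.Results.MP_8790b5_co.BranchingNumber
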